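import Pool.Agent.Helper92.BW.GoalsB
import Pool.Agent.Helper60.FR.CPV

/-! Packet BW-SCV: the values of one step of the rounding. -/

set_option linter.unusedVariables false

namespace Pool.Agent.Helper12.BW

open Pool.Agent.Helper92.FR hiding DepStmt
open Pool.Agent.Helper92.BW Pool.Agent.Bin
open Pool.Agent.Helper60.FR

theorem pmax_spec (d : ℕ) (ph : List Qn) : pmax d ph < d + 1 ∧
    ∀ i < d + 1, (ph.getD i Qn.zero).val ≤ (ph.getD (pmax d ph) Qn.zero).val := by
  obtain ⟨i0, hi0, hmax⟩ := Finset.exists_max_image (Finset.range (d + 1))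
    (fun i => (ph.getD i Qn.zero).val) ⟨0, by simp⟩
  rw [Finset.mem_range] at hi0
  unfold pmax
  cases hf : (List.range (d + 1)).find? (fun i =>
      (List.range (d + 1)).all fun i' => Qn.le (ph.getD i' Qn.zero) (ph.getD i Qn.zero)) with
  | none =>
    exfalso
    rw [List.find?_eq_none] at hf
    have := hf i0 (List.mem_range.2 hi0)
    apply this
    rw [List.all_eq_true]
    intro i hi
    rw [Qn.le_iff]
    exact hmax i (Finset.mem_range.2 (List.mem_range.1 hi))
  | some a =>
    have h1 := List.mem_of_find?_eq_some hf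
    have h2 := List.find?_some hf
    rw [Option.getD_some]
    refine ⟨List.mem_range.1 h1, fun i hi => ?_⟩
    rw [List.all_eq_true] at h2
    exact (Qn.le_iff _ _).1 (h2 i (List.mem_range.2 hi))

theorem scv : ScvStmt := by
  intro d hd st ph hst hph hsum
  have hdr : (1 : ℝ) ≤ d := by exact_mod_cast hd
  obtain ⟨ha, hmax⟩ := pmax_spec d ph
  set m := pmax d ph with hm
  have h3 := hst.2.2
  have hpos : (0 : ℝ) < st.2.val := by exact_mod_cast h3
  have hQ1 : 1 ≤ qs d := by unfold qs; exact Nat.mul_pos (by norm_num) (by positivity)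
  have hQr : (qs d : ℝ) = 16 * ((d : ℝ) + 1) ^ 3 := by unfold qs; push_cast; ring
  have hQ64 : (64 : ℝ) ≤ qs d := by
    rw [hQr]
    have : (2 : ℝ) ^ 3 ≤ ((d : ℝ) + 1) ^ 3 := pow_le_pow_left₀ (by norm_num) (by linarith) 3
    linarith
  have hQpos : (0 : ℝ) < qs d := by linarith
  have hwf : CWf d (scut d st ph) := by
    refine ⟨?_, ?_, ?_⟩
    · unfold scut
      simp only [List.length_map, List.length_range]
    · intro v hv
      unfold scut at hv
      simp only [List.mem_map, List.mem_range] at hv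
      obtain ⟨i, -, rfl⟩ := hv
      rw [List.length_map, List.length_range]
    · unfold scut
      simp only [BN.val_mul, BN.val_ofNat]
      exact Nat.mul_pos hQ1 h3
  -- the largest weight is nonnegative
  set φ : Fin (d + 1) → ℝ := lv (d + 1) ph with hφ
  set i0 : Fin (d + 1) := ⟨m, ha⟩ with hi0
  have hφv : ∀ i : Fin (d + 1), (ph.getD (i : ℕ) Qn.zero).val = φ i := fun i => rfl
  have hmaxR : ∀ i, φ i ≤ φ i0 := by
    intro i
    exact hmax i i.2
  have hnn : 0 ≤ φ i0 := by
    by_contra hc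
    push Not at hc
    have : ∑ i, φ i < 0 := by
      apply Finset.sum_neg (fun i _ => lt_of_le_of_lt (hmaxR i) hc) ⟨i0, Finset.mem_univ _⟩
    linarith
  have hu : ∀ i, 7 / 8 ≤ us φ i0 i := by
    intro i
    unfold us
    have e1 : 0 ≤ (φ i0 - φ i) * (φ i0)⁻¹ :=
      mul_nonneg (by linarith [hmaxR i]) (inv_nonneg.2 hnn)
    have e2 : 1 / (2 * ((d : ℝ) + 1) ^ 2) ≤ 1 / 8 := by
      apply one_div_le_one_div_of_le (by norm_num)
      nlinarith
    have e3 : 0 ≤ 1 / (2 * ((d : ℝ) + 1) ^ 2) := by positivity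
    have := mul_nonneg e3 e1
    linarith
  have hn0 : ∀ i : Fin (d + 1), (sfac0 d ph i).val =
      ⌊(qs d : ℝ) * (us φ i0 i)⁻¹⌋₊ + 1 := by
    intro i
    unfold sfac0
    rw [BN.val_add, Qn.fl_eq, Qn.val_mul, Qn.val_inv, Qn.val_add, Qn.val_sub, Qn.val_mul,
      Qn.val_mul, Qn.val_inv, Qn.val_sub, val_qNat, Qn.val_one,
      val_invNat (Nat.mul_pos (by norm_num) (by positivity)), ← hm,
      show (ph.getD m Qn.zero).val = φ i0 from rfl, hφv i]
    unfold us
    push_cast
    rfl
  have hn : ∀ i : Fin (d + 1), (sfac d ph i).val =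
      ⌊(qs d : ℝ) * (us φ i0 i)⁻¹⌋₊ + 1 := by
    intro i
    unfold sfac
    rw [if_pos, hn0 i]
    rw [BN.le_def, hn0 i, BN.val_ofNat]
    have e1 : (⌊(qs d : ℝ) * (us φ i0 i)⁻¹⌋₊ : ℝ) ≤
        (qs d : ℝ) * (us φ i0 i)⁻¹ :=
      Nat.floor_le (mul_nonneg hQpos.le (inv_nonneg.2 (by linarith [hu i])))
    have e2 : (us φ i0 i)⁻¹ ≤ 8 / 7 := by
      rw [inv_le_comm₀ (by linarith [hu i]) (by norm_num)]
      have := hu i
      norm_num
      linarith
    have e3 : (qs d : ℝ) * (us φ i0 i)⁻¹ ≤ (qs d : ℝ) * (8 / 7) :=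
      mul_le_mul_of_nonneg_left e2 hQpos.le
    have e4 : ((⌊(qs d : ℝ) * (us φ i0 i)⁻¹⌋₊ + 1 : ℕ) : ℝ) ≤
        ((2 * qs d : ℕ) : ℝ) := by
      push_cast
      linarith
    exact_mod_cast e4
  refine ⟨hwf, ?_⟩
  refine ⟨i0, fun i => ((sfac d ph i).val : ℝ) / qs d, hmaxR, fun i hi => ?_, fun i l => ?_⟩
  · have hui := hu i
    have hup : 0 < us φ i0 i := by linarith
    have f1 : (⌊(qs d : ℝ) * (us φ i0 i)⁻¹⌋₊ : ℝ) ≤
        (qs d : ℝ) * (us φ i0 i)⁻¹ :=
      Nat.floor_le (mul_nonneg hQpos.le (inv_nonneg.2 hup.le))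
    have f2 := Nat.lt_floor_add_one ((qs d : ℝ) * (us φ i0 i)⁻¹)
    beta_reduce
    rw [hn i]
    push_cast
    constructor
    · rw [div_mul_eq_mul_div, le_div_iff₀ hQpos, one_mul]
      calc (qs d : ℝ) = (qs d : ℝ) * (us φ i0 i)⁻¹ * us φ i0 i := by field_simp
        _ ≤ _ := mul_le_mul_of_nonneg_right f2.le hup.le
    · rw [← hQr, add_div]
      have : (⌊(qs d : ℝ) * (us φ i0 i)⁻¹⌋₊ : ℝ) / qs d ≤ 1 / us φ i0 i := by
        rw [div_le_iff₀ hQpos]
        calc (⌊(qs d : ℝ) * (us φ i0 i)⁻¹⌋₊ : ℝ) ≤ _ := f1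
          _ = _ := by field_simp
      linarith
  · rw [VV_eq hwf, VV_eq hst, VV_eq hst]
    have hra : ra (scut d st ph) i l = if (i : ℕ) = m then
        (BN.ofNat (qs d) * (ra st i l).1, BN.ofNat (qs d) * (ra st i l).2)
      else
        (BN.ofNat (qs d) * (ra st m l).1 + sfac d ph i * ((ra st i l).1 + (ra st m l).2),
         BN.ofNat (qs d) * (ra st m l).2 + sfac d ph i * ((ra st i l).2 + (ra st m l).1)) := by
      have h0 : (scut d st ph).1.getD (i : ℕ) [] = (List.range d).map fun l =>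
          if (i : ℕ) = m then
            (BN.ofNat (qs d) * (ra st i l).1, BN.ofNat (qs d) * (ra st i l).2)
          else
            (BN.ofNat (qs d) * (ra st m l).1 + sfac d ph i * ((ra st i l).1 + (ra st m l).2),
             BN.ofNat (qs d) * (ra st m l).2 +
              sfac d ph i * ((ra st i l).2 + (ra st m l).1)) := by
        unfold scut
        simp only
        rw [getD_mr (d + 1) _ _ i.2]
        rfl
      conv_lhs => unfold ra
      rw [h0, getD_mr d _ _ l.2]
    have hden : ((scut d st ph).2.val : ℝ) = qs d * st.2.val := by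
      unfold scut
      simp only [BN.val_mul, BN.val_ofNat]
      push_cast
      ring
    rw [hra, hden]
    split_ifs with him
    · have hii : i = i0 := Fin.ext him
      subst hii
      simp only [BN.val_mul, BN.val_ofNat]
      push_cast
      field_simp
      ring
    · simp only [BN.val_mul, BN.val_ofNat, BN.val_add]
      rw [show ((i0 : Fin (d + 1)) : ℕ) = m from rfl]
      push_cast
      field_simp
      ring

end Pool.Agent.Helper12.BW
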